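import Pool.Agent.EGF.Stmts

/-!
Row STA of table `egf` (MP_1090a0_co): the three bootstrapping steps with their constants.
-/

set_option autoImplicit false

namespace Pool.Agent.EGF.H31

open Finset Pool.Agent.EGF

theorem flat_mono {V : Type} [DecidableEq V] {k : ℕ} {c : V → V → Fin k} {W W' : Finset V}
    {s : ℕ} {L L' : ℝ} (h : Flat c W s L) (hW : W' ⊆ W) (hL : L ≤ L') : Flat c W' s L' :=
  fun S hS hs => (h S (hS.trans hW) hs).trans hL

theorem no4_mono {V : Type} [DecidableEq V] {k : ℕ} {c : V → V → Fin k} {W W' : Finset V}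
    (h : No4 c W) (hW : W' ⊆ W) : No4 c W' :=
  fun x hx x' hx' y hy y' hy' => h x (hW hx) x' (hW hx') y (hW hy) y' (hW hy')

theorem exp_bounds (Q : ℝ) (hQ : 1024 ≤ Q) : 512 * Q ≤ Real.exp Q ∧ 33 * Q ^ 4 ≤ Real.exp Q := by
  constructor
  · have h := Real.quadratic_le_exp_of_nonneg (x := Q) (by linarith)
    nlinarith
  · have h := Real.pow_div_factorial_le_exp Q (by linarith) 6
    have h6 : (Nat.factorial 6 : ℝ) = 720 := by norm_num [Nat.factorial]
    rw [h6] at h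
    have h1 : (1024 : ℝ) ^ 2 ≤ Q ^ 2 := by
      apply pow_le_pow_left₀ (by norm_num) hQ
    have h4 : 0 ≤ Q ^ 4 := by positivity
    have h5 : Q ^ 6 = Q ^ 2 * Q ^ 4 := by ring
    have h7 : (1024 : ℝ) ^ 2 * Q ^ 4 ≤ Q ^ 2 * Q ^ 4 := mul_le_mul_of_nonneg_right h1 h4
    rw [h5] at h
    have h8 : (33 : ℝ) * Q ^ 4 ≤ (1024 : ℝ) ^ 2 * Q ^ 4 / 720 := by
      rw [le_div_iff₀ (by norm_num)]
      nlinarith
    have h9 : (1024 : ℝ) ^ 2 * Q ^ 4 / 720 ≤ Q ^ 2 * Q ^ 4 / 720 := by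
      gcongr
    linarith

theorem sta (ini : IniStmt) (stp : StpStmt) : StaStmt := by
  intro V _ k c θ Q s s1 W hsym hno hθ hθ1 hQ hs hs1 hk hW hpal hlog
  obtain ⟨u, hu⟩ : ∃ u : ℝ, u = 1 / θ := ⟨_, rfl⟩
  have hu0 : 0 < u := by rw [hu]; positivity
  have huQ : 1024 * u ≤ Q := by
    have h1 : 1024 / θ = 1024 * u := by rw [hu]; ring
    rw [← h1]; exact hQ
  have hu1 : 1 ≤ u := by
    rw [hu, le_div_iff₀ hθ]; linarith
  have hQr : (1024 : ℝ) ≤ Q := by linarith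
  obtain ⟨x0, hx0⟩ := hW
  have hk1 : 1 ≤ k := by
    have := (c x0 x0).2
    omega
  have hkr : (1 : ℝ) ≤ k := by exact_mod_cast hk1
  obtain ⟨E, hE⟩ : ∃ E : ℝ, E = Real.exp Q := ⟨_, rfl⟩
  have hexp2 : Real.exp (2 * Q) = E * E := by
    rw [two_mul, Real.exp_add, hE]
  obtain ⟨hE1, hE2⟩ := exp_bounds Q hQr
  rw [← hE] at hE1 hE2 hk
  rw [hexp2] at hlog
  have hE3 : 524288 ≤ E := by linarith
  have hE0 : 0 < E := by linarith
  obtain ⟨lk, hlk⟩ : ∃ lk : ℝ, lk = Real.log (2 * k) := ⟨_, rfl⟩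
  rw [← hlk] at hk
  have hlk1 : 1 / 2 ≤ lk := by
    have h1 : Real.log 2 ≤ Real.log (2 * k) := by
      apply Real.log_le_log (by norm_num)
      linarith
    have h2 := Real.log_two_gt_d9
    rw [hlk]
    linarith
  have hlogk : Real.log k ≤ lk := by
    rw [hlk]
    apply Real.log_le_log (by linarith)
    linarith
  obtain ⟨l, hl⟩ : ∃ l : ℝ, l = 35 * lk * u := ⟨_, rfl⟩
  have hl1 : 1 ≤ l := by
    rw [hl]
    nlinarith
  obtain ⟨s0, hs0⟩ : ∃ s0 : ℕ, s0 = ⌈32 * l⌉₊ + 1 := ⟨_, rfl⟩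
  have hs0a : 32 * l + 1 ≤ (s0 : ℝ) := by
    rw [hs0]
    push_cast
    linarith [Nat.le_ceil (32 * l)]
  have hs0b : (s0 : ℝ) ≤ 32 * l + 2 := by
    rw [hs0]
    push_cast
    linarith [Nat.ceil_lt_add_one (show 0 ≤ 32 * l by linarith)]
  have hs01 : (1 : ℝ) ≤ s0 := by linarith
  have hs0n : 1 ≤ s0 := by omega
  -- log s0 ≤ 2 Q
  have hlogs0 : Real.log s0 ≤ 2 * Q := by
    rw [Real.log_le_iff_le_exp (by linarith), hexp2]
    have h1 : 32 * l = 1120 * (lk * u) := by rw [hl]; ring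
    have h2 : lk * u ≤ E * (Q / 1024) := by
      apply mul_le_mul hk (by linarith) hu0.le hE0.le
    have h3 : E * (Q / 1024) ≤ E * (E / (512 * 1024)) := by
      apply mul_le_mul_of_nonneg_left _ hE0.le
      rw [div_le_div_iff₀ (by norm_num) (by norm_num)]
      nlinarith
    have h4 : E * (E / (512 * 1024)) = E * E / 524288 := by ring
    have h5 : 524288 * 524288 ≤ E * E := by nlinarith
    linarith
  have hlogs00 : 0 ≤ Real.log s0 := Real.log_nonneg hs01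
  -- log s ≤ Q
  have hsr : (s : ℝ) = 32 * (Q : ℝ) ^ 4 + 1 := by
    rw [hs]; push_cast; ring
  have hQ4 : (1 : ℝ) ≤ (Q : ℝ) ^ 4 := one_le_pow₀ (by linarith)
  have hs1r : (1 : ℝ) ≤ s := by rw [hsr]; linarith
  have hlogs : Real.log s ≤ Q := by
    rw [Real.log_le_iff_le_exp (by linarith), ← hE, hsr]
    linarith
  have hlogs' : 0 ≤ Real.log s := Real.log_nonneg hs1r
  -- step 1
  obtain ⟨W1, hW1s, hW1n, hF1, hp1, hl1'⟩ := ini V k c W θ (1 / 16) (1 / 16) s0 hno hθ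
    (by norm_num) (by norm_num) (by norm_num) (by norm_num) hs0n ⟨x0, hx0⟩ hpal (by
      rw [← hlk]
      nlinarith)
  have hno1 : No4 c W1 := no4_mono hno hW1s
  have hP1 : (0 : ℝ) ≤ ((pal c W1).card : ℝ) := Nat.cast_nonneg _
  have hF1' : Flat c W1 s0 (l * s0) := by
    refine flat_mono hF1 (Finset.Subset.refl _) ?_
    rw [← hlk]
    have h1 : (1 + (s0 : ℝ) / (1 / 16)) * lk / ((1 - 1 / 16) * θ) =
        (16 / 15) * (1 + 16 * s0) * lk * u := by
      rw [hu]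
      field_simp
      ring
    rw [h1, hl]
    have h2 : 0 ≤ lk * u := by positivity
    nlinarith
  obtain ⟨W2, hW2s, hW2n, hF2, hp2, hl2⟩ := stp V k c W1 (4 / 5 * θ) (1 / 16) (1 / 16) l s0 s
    hsym hno1 (by positivity) (by norm_num) (by norm_num) (by norm_num) (by norm_num) hl1 hs0a
    (by omega) hW1n hF1' (by nlinarith) (by
      have h1 : E * E / 32 ≤ Real.log W1.card := by linarith
      have h2 : 524288 * E ≤ E * E := by nlinarith
      linarith)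
  have hno2 : No4 c W2 := no4_mono hno1 hW2s
  have hP2 : (0 : ℝ) ≤ ((pal c W2).card : ℝ) := Nat.cast_nonneg _
  have hF2' : Flat c W2 s ((Q : ℝ) ^ 4 * s) := by
    refine flat_mono hF2 (Finset.Subset.refl _) ?_
    have h1 : (1 + (s : ℝ) / (1 / 16)) * (2 * Real.log s0) / ((1 - 1 / 16) * (4 / 5 * θ)) =
        (8 / 3) * (1 + 16 * s) * (Real.log s0 * u) := by
      rw [hu]
      field_simp
      ring
    rw [h1]
    have h2 : Real.log s0 * u ≤ 2 * Q * (Q / 1024) := by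
      apply mul_le_mul hlogs0 (by linarith) hu0.le (by linarith)
    have h3 : 2 * (Q : ℝ) * (Q / 1024) = (Q : ℝ) ^ 2 / 512 := by ring
    rw [h3] at h2
    have h4 : (Q : ℝ) ^ 2 ≤ (Q : ℝ) ^ 4 := by
      apply pow_le_pow_right₀ (by linarith) (by norm_num)
    have h5 : (8 / 3) * (1 + 16 * (s : ℝ)) * (Real.log s0 * u) ≤
        (8 / 3) * (1 + 16 * (s : ℝ)) * ((Q : ℝ) ^ 4 / 512) := by
      apply mul_le_mul_of_nonneg_left _ (by positivity)
      linarith
    have h6 : (8 / 3) * (1 + 16 * (s : ℝ)) * ((Q : ℝ) ^ 4 / 512) ≤ (Q : ℝ) ^ 4 * s := by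
      have h7 : 0 ≤ (Q : ℝ) ^ 4 * (s - 1) := mul_nonneg (by linarith) (by linarith)
      nlinarith
    linarith
  have hs1n : 1 ≤ s1 := by
    rw [hs1]
    apply Nat.one_le_pow
    have : (0 : ℝ) < Q := by linarith
    exact_mod_cast this
  obtain ⟨W3, hW3s, hW3n, hF3, hp3, hl3⟩ := stp V k c W2 (θ / 2) (1 / 4) (1 / 4) ((Q : ℝ) ^ 4)
    s s1 hsym hno2 (by positivity) (by norm_num) (by norm_num) (by norm_num) (by norm_num) hQ4
    (by rw [hsr]) hs1n hW2n hF2' (by nlinarith) (by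
      have h1 : E * E / 1024 ≤ Real.log W2.card := by linarith
      have h2 : 524288 * E ≤ E * E := by nlinarith
      linarith)
  have hP3 : (0 : ℝ) ≤ ((pal c W3).card : ℝ) := Nat.cast_nonneg _
  refine ⟨W3, hW3s.trans (hW2s.trans hW1s), hW3n, flat_mono hF2' hW3s le_rfl, ?_, ?_, ?_⟩
  · refine flat_mono hF3 (Finset.Subset.refl _) ?_
    have h1 : (1 + (s1 : ℝ) / (1 / 4)) * (2 * Real.log s) / ((1 - 1 / 4) * (θ / 2)) =
        (16 / 3) * (1 + 4 * s1) * (Real.log s * u) := by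
      rw [hu]
      field_simp
      ring
    rw [h1]
    have h2 : Real.log s * u ≤ Q * (Q / 1024) := by
      apply mul_le_mul hlogs (by linarith) hu0.le (by linarith)
    have h3 : (Q : ℝ) * (Q / 1024) = (Q : ℝ) ^ 2 / 1024 := by ring
    rw [h3] at h2
    have hs1' : (1 : ℝ) ≤ s1 := by exact_mod_cast hs1n
    have h5 : (16 / 3) * (1 + 4 * (s1 : ℝ)) * (Real.log s * u) ≤
        (16 / 3) * (1 + 4 * (s1 : ℝ)) * ((Q : ℝ) ^ 2 / 1024) := by
      apply mul_le_mul_of_nonneg_left h2 (by positivity)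
    have h6 : (16 / 3) * (1 + 4 * (s1 : ℝ)) * ((Q : ℝ) ^ 2 / 1024) ≤ (Q : ℝ) ^ 2 * s1 := by
      have h7 : 0 ≤ (Q : ℝ) ^ 2 * (s1 - 1) := mul_nonneg (by positivity) (by linarith)
      nlinarith
    linarith
  · nlinarith
  · linarith

end Pool.Agent.EGF.H31
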