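import Pool.Agent.EGF.StmtsP
import Pool.Agent.Helper31_EGF.STA

/-!
Row STA2 of table `egf` (MP_1090a0_co): flat sets when `1 / θ` is polynomial in `Q`.
-/

set_option autoImplicit false

namespace Pool.Agent.EGF.H31

open Finset Pool.Agent.EGF

theorem exp_bound2 (Q : ℝ) (hQ : 1024 ≤ Q) : 33 * Q ^ 2 ≤ Real.exp Q := by
  have h := (exp_bounds Q hQ).2
  have h2 : Q ^ 2 ≤ Q ^ 4 := pow_le_pow_right₀ (by linarith) (by norm_num)
  linarith

theorem sta2 (ini : IniStmt) (stp : StpStmt) : Sta2Stmt := by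
  intro V _ k c θ Q s s1 W hsym hno hθ hθ1 hQ hs hs1n hk hW hpal hlog
  obtain ⟨u, hu⟩ : ∃ u : ℝ, u = 1 / θ := ⟨_, rfl⟩
  have hu0 : 0 < u := by rw [hu]; positivity
  have huQ : 1024 * u ≤ Q := by
    have h1 : 1024 / θ = 1024 * u := by rw [hu]; ring
    rw [← h1]; exact hQ
  have hu1 : 1 ≤ u := by
    rw [hu, le_div_iff₀ hθ]; linarith
  have hQr : (1024 : ℝ) ≤ Q := by linarith
  obtain ⟨x0, hx0⟩ := hW
  have hk1 : 1 ≤ k := by
    have := (c x0 x0).2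
    omega
  have hkr : (1 : ℝ) ≤ k := by exact_mod_cast hk1
  obtain ⟨lk, hlk⟩ : ∃ lk : ℝ, lk = Real.log (2 * k) := ⟨_, rfl⟩
  rw [← hlk] at hk hlog
  have hlk1 : 1 / 2 ≤ lk := by
    have h1 : Real.log 2 ≤ Real.log (2 * k) := by
      apply Real.log_le_log (by norm_num)
      linarith
    have h2 := Real.log_two_gt_d9
    rw [hlk]
    linarith
  have hlogk : Real.log k ≤ lk := by
    rw [hlk]
    apply Real.log_le_log (by linarith)
    linarith
  have hsr : (s : ℝ) = 32 * (Q : ℝ) ^ 2 + 1 := by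
    rw [hs]; push_cast; ring
  have hQ2 : (1 : ℝ) ≤ (Q : ℝ) ^ 2 := one_le_pow₀ (by linarith)
  have hs1r : (1 : ℝ) ≤ s := by rw [hsr]; linarith
  have hlogs : Real.log s ≤ Q := by
    rw [Real.log_le_iff_le_exp (by linarith), hsr]
    have := exp_bound2 Q hQr
    linarith
  have hlogs' : 0 ≤ Real.log s := Real.log_nonneg hs1r
  obtain ⟨W1, hW1s, hW1n, hF1, hp1, hl1'⟩ := ini V k c W θ (1 / 16) (1 / 16) s hno hθ
    (by norm_num) (by norm_num) (by norm_num) (by norm_num) (by omega) ⟨x0, hx0⟩ hpal (by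
      rw [← hlk]
      linarith)
  have hno1 : No4 c W1 := no4_mono hno hW1s
  have hP1 : (0 : ℝ) ≤ ((pal c W1).card : ℝ) := Nat.cast_nonneg _
  have hF1' : Flat c W1 s ((Q : ℝ) ^ 2 * s) := by
    refine flat_mono hF1 (Finset.Subset.refl _) ?_
    rw [← hlk]
    have h1 : (1 + (s : ℝ) / (1 / 16)) * lk / ((1 - 1 / 16) * θ) =
        (16 / 15) * (1 + 16 * s) * (lk * u) := by
      rw [hu]
      field_simp
      ring
    rw [h1]
    have h2 : lk * u ≤ Q * (Q / 1024) := by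
      apply mul_le_mul hk (by linarith) hu0.le (by linarith)
    have h3 : (Q : ℝ) * (Q / 1024) = (Q : ℝ) ^ 2 / 1024 := by ring
    rw [h3] at h2
    have h5 : (16 / 15) * (1 + 16 * (s : ℝ)) * (lk * u) ≤
        (16 / 15) * (1 + 16 * (s : ℝ)) * ((Q : ℝ) ^ 2 / 1024) := by
      apply mul_le_mul_of_nonneg_left h2 (by positivity)
    have h6 : (16 / 15) * (1 + 16 * (s : ℝ)) * ((Q : ℝ) ^ 2 / 1024) ≤ (Q : ℝ) ^ 2 * s := by
      have h7 : 0 ≤ (Q : ℝ) ^ 2 * (s - 1) := mul_nonneg (by positivity) (by linarith)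
      nlinarith
    linarith
  obtain ⟨W2, hW2s, hW2n, hF2, hp2, hl2⟩ := stp V k c W1 (4 / 5 * θ) (1 / 16) (1 / 16)
    ((Q : ℝ) ^ 2) s s1 hsym hno1 (by positivity) (by norm_num) (by norm_num) (by norm_num)
    (by norm_num) hQ2 (by rw [hsr]) hs1n hW1n hF1' (by nlinarith) (by linarith)
  have hP2 : (0 : ℝ) ≤ ((pal c W2).card : ℝ) := Nat.cast_nonneg _
  refine ⟨W2, hW2s.trans hW1s, hW2n, flat_mono hF1' hW2s le_rfl, ?_, ?_, ?_⟩
  · refine flat_mono hF2 (Finset.Subset.refl _) ?_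
    have h1 : (1 + (s1 : ℝ) / (1 / 16)) * (2 * Real.log s) / ((1 - 1 / 16) * (4 / 5 * θ)) =
        (8 / 3) * (1 + 16 * s1) * (Real.log s * u) := by
      rw [hu]
      field_simp
      ring
    rw [h1]
    have h2 : Real.log s * u ≤ Q * (Q / 1024) := by
      apply mul_le_mul hlogs (by linarith) hu0.le (by linarith)
    have h3 : (Q : ℝ) * (Q / 1024) = (Q : ℝ) ^ 2 / 1024 := by ring
    rw [h3] at h2
    have hs1' : (1 : ℝ) ≤ s1 := by exact_mod_cast hs1n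
    have h5 : (8 / 3) * (1 + 16 * (s1 : ℝ)) * (Real.log s * u) ≤
        (8 / 3) * (1 + 16 * (s1 : ℝ)) * ((Q : ℝ) ^ 2 / 1024) := by
      apply mul_le_mul_of_nonneg_left h2 (by positivity)
    have h6 : (8 / 3) * (1 + 16 * (s1 : ℝ)) * ((Q : ℝ) ^ 2 / 1024) ≤ (Q : ℝ) ^ 2 * s1 := by
      have h7 : 0 ≤ (Q : ℝ) ^ 2 * (s1 - 1) := mul_nonneg (by positivity) (by linarith)
      nlinarith
    linarith
  · nlinarith
  · linarith

end Pool.Agent.EGF.H31
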